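import Mathlib
import Pool.Agent.H762R2.Top1

/-!
# Fillings of plane sets

`Fill W` is the union of `W` and the bounded components of its complement.
-/

set_option autoImplicit false
open Set Filter Topology Metric Bornology

namespace Pool.Agent.J4H71.UD

/-- The filling of a plane set: the points whose component in the complement is bounded (it is
empty for the points of the set). -/
def Fill (W : Set ℂ) : Set ℂ := {z | IsBounded (connectedComponentIn Wᶜ z)}

theorem mem_fill {W : Set ℂ} {z : ℂ} : z ∈ Fill W ↔ IsBounded (connectedComponentIn Wᶜ z) :=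
  Iff.rfl

theorem subset_fill (W : Set ℂ) : W ⊆ Fill W := by
  intro z hz
  rw [mem_fill, connectedComponentIn_eq_empty (notMem_compl_iff.2 hz)]
  exact isBounded_empty

/-- The filling is contained in every superset whose complement is connected and unbounded. -/
theorem fill_subset {W S : Set ℂ} (h : W ⊆ S) (hc : IsPreconnected Sᶜ) (hu : ¬ IsBounded Sᶜ) :
    Fill W ⊆ S := by
  intro z hz
  by_contra hzS
  apply hu
  exact (mem_fill.1 hz).subset (hc.subset_connectedComponentIn hzS (compl_subset_compl.2 h))

theorem not_isBounded_norm_gt (a : ℂ) (R : ℝ) : ¬ IsBounded {z : ℂ | R < ‖z - a‖} := by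
  intro h
  obtain ⟨C, hC⟩ := h.subset_ball a
  set t : ℝ := max (max R C) 0 + 1 with ht
  have h1 : 0 < t := by
    have := le_max_right (max R C) 0
    linarith
  have h2 : R < t := by
    have := (le_max_left R C).trans (le_max_left (max R C) 0)
    linarith
  have h3 : C < t := by
    have := (le_max_right R C).trans (le_max_left (max R C) 0)
    linarith
  have h4 : ‖(a + (t : ℂ)) - a‖ = t := by
    rw [add_sub_cancel_left, Complex.norm_real, Real.norm_of_nonneg h1.le]
  have h5 := hC (show a + (t : ℂ) ∈ {z : ℂ | R < ‖z - a‖} by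
    rw [mem_ofPred_eq, h4]; exact h2)
  rw [mem_ball, dist_eq_norm, h4] at h5
  linarith

theorem isPreconnected_norm_sub_gt (a : ℂ) {R : ℝ} (hR : 0 ≤ R) :
    IsPreconnected {z : ℂ | R < ‖z - a‖} := by
  have h1 : {z : ℂ | R < ‖z - a‖} = (fun w => w + a) '' {w : ℂ | R < ‖w‖} := by
    ext z
    constructor
    · intro hz
      exact ⟨z - a, hz, by simp⟩
    · rintro ⟨w, hw, rfl⟩
      have : R < ‖w‖ := hw
      simpa using this
  rw [h1]
  exact (H762R2.isPreconnected_norm_gt R hR).image _ (by fun_prop)

theorem compl_closedBall_eq (a : ℂ) (R : ℝ) : (closedBall a R)ᶜ = {z : ℂ | R < ‖z - a‖} := by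
  ext z
  rw [mem_compl_iff, mem_closedBall, dist_eq_norm, not_le, mem_ofPred_eq]

theorem fill_subset_closedBall {W : Set ℂ} {a : ℂ} {R : ℝ} (h : W ⊆ closedBall a R) :
    Fill W ⊆ closedBall a R := by
  rcases lt_or_ge R 0 with hR | hR
  · have hW : W = ∅ := by
      rw [closedBall_eq_empty.2 hR] at h
      exact subset_empty_iff.1 h
    subst hW
    intro z hz
    exfalso
    rw [mem_fill, compl_empty, connectedComponentIn_univ] at hz
    have h2 : connectedComponent z = univ := PreconnectedSpace.connectedComponent_eq_univ z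
    rw [h2] at hz
    exact not_isBounded_norm_gt 0 0 (hz.subset (subset_univ _))
  · apply fill_subset h
    · rw [compl_closedBall_eq]
      exact isPreconnected_norm_sub_gt a hR
    · rw [compl_closedBall_eq]
      exact not_isBounded_norm_gt a R

theorem fill_subset_ball {W : Set ℂ} {a : ℂ} {R : ℝ} (h : W ⊆ ball a R) (hW : W.Nonempty) :
    Fill W ⊆ ball a R := by
  obtain ⟨w, hw⟩ := hW
  have hR : 0 < R := lt_of_le_of_lt dist_nonneg (h hw)
  have h0 : (ball a R)ᶜ = ⋂ n : ℕ, {z : ℂ | R - (1 / ((n : ℝ) + 1)) < ‖z - a‖} := by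
    ext z
    rw [mem_compl_iff, mem_ball, dist_eq_norm, not_lt, mem_iInter]
    constructor
    · intro h1 n
      rw [mem_ofPred_eq]
      have : (0 : ℝ) < 1 / ((n : ℝ) + 1) := by positivity
      linarith
    · intro h1
      by_contra h2
      obtain ⟨n, hn⟩ := exists_nat_one_div_lt (show 0 < R - ‖z - a‖ by linarith)
      have := h1 n
      rw [mem_ofPred_eq] at this
      linarith
  apply fill_subset h
  · have h1 : (ball a R)ᶜ = closure {z : ℂ | R < ‖z - a‖} := by
      apply Subset.antisymm
      · intro z hz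
        rw [mem_compl_iff, mem_ball, dist_eq_norm, not_lt] at hz
        rw [Metric.mem_closure_iff]
        intro ε hε
        have hz0 : 0 < ‖z - a‖ := by linarith
        refine ⟨z + ((ε / 2 / ‖z - a‖ : ℝ) : ℂ) * (z - a), ?_, ?_⟩
        · have e1 : z + ((ε / 2 / ‖z - a‖ : ℝ) : ℂ) * (z - a) - a =
              ((1 + ε / 2 / ‖z - a‖ : ℝ) : ℂ) * (z - a) := by
            push_cast
            ring
          rw [mem_ofPred_eq, e1, norm_mul, Complex.norm_real, Real.norm_of_nonneg (by positivity)]
          have e2 : (1 + ε / 2 / ‖z - a‖) * ‖z - a‖ = ‖z - a‖ + ε / 2 := by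
            field_simp
          rw [e2]
          linarith
        · rw [dist_eq_norm, sub_add_cancel_left, norm_neg, norm_mul, Complex.norm_real,
            Real.norm_of_nonneg (by positivity)]
          have e2 : ε / 2 / ‖z - a‖ * ‖z - a‖ = ε / 2 := by
            field_simp
          rw [e2]
          linarith
      · apply closure_minimal
        · intro z hz
          rw [mem_ofPred_eq] at hz
          rw [mem_compl_iff, mem_ball, dist_eq_norm, not_lt]
          exact hz.le
        · exact isOpen_ball.isClosed_compl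
    rw [h1]
    exact (isPreconnected_norm_sub_gt a hR.le).closure
  · intro h1
    refine not_isBounded_norm_gt a R (h1.subset ?_)
    intro z hz
    rw [mem_ofPred_eq] at hz
    rw [mem_compl_iff, mem_ball, dist_eq_norm, not_lt]
    exact hz.le

theorem isBounded_fill {W : Set ℂ} (h : IsBounded W) : IsBounded (Fill W) := by
  obtain ⟨R, hR⟩ := h.subset_closedBall 0
  exact isBounded_closedBall.subset (fill_subset_closedBall hR)

/-- The complement of the filling of a bounded set is one component of the complement. -/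
theorem compl_fill_eq {W : Set ℂ} {a : ℂ} {R : ℝ} (h : W ⊆ closedBall a R) (hR : 0 ≤ R) {w : ℂ}
    (hw : R < ‖w - a‖) : (Fill W)ᶜ = connectedComponentIn Wᶜ w := by
  have hsub : {z : ℂ | R < ‖z - a‖} ⊆ Wᶜ := by
    rw [← compl_closedBall_eq]
    exact compl_subset_compl.2 h
  have hsub2 : {z : ℂ | R < ‖z - a‖} ⊆ connectedComponentIn Wᶜ w :=
    (isPreconnected_norm_sub_gt a hR).subset_connectedComponentIn hw hsub
  ext z
  rw [mem_compl_iff, mem_fill]
  constructor
  · intro hz
    -- an unbounded component meets the complement of the ball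
    have hmeet : ∃ y ∈ connectedComponentIn Wᶜ z, R < ‖y - a‖ := by
      by_contra hcon
      push Not at hcon
      apply hz
      refine (isBounded_closedBall (x := a) (r := R)).subset ?_
      intro y hy
      rw [mem_closedBall, dist_eq_norm]
      exact hcon y hy
    obtain ⟨y, hy, hyR⟩ := hmeet
    have hzW : z ∈ Wᶜ := by
      by_contra hzW
      rw [connectedComponentIn_eq_empty hzW] at hy
      exact hy
    have e1 : connectedComponentIn Wᶜ z = connectedComponentIn Wᶜ y :=
      connectedComponentIn_eq hy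
    have e2 : connectedComponentIn Wᶜ w = connectedComponentIn Wᶜ y :=
      connectedComponentIn_eq (hsub2 hyR)
    rw [e2, ← e1]
    exact mem_connectedComponentIn hzW
  · intro hz hb
    have e1 : connectedComponentIn Wᶜ w = connectedComponentIn Wᶜ z :=
      connectedComponentIn_eq hz
    rw [← e1] at hb
    exact not_isBounded_norm_gt a R (hb.subset hsub2)

theorem exists_compl_fill_eq {W : Set ℂ} (hb : IsBounded W) :
    ∃ w : ℂ, (Fill W)ᶜ = connectedComponentIn Wᶜ w ∧ w ∈ Wᶜ := by
  obtain ⟨R, hR⟩ := hb.subset_closedBall 0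
  set t : ℝ := max R 0 with ht
  have h1 : W ⊆ closedBall 0 t := hR.trans (closedBall_subset_closedBall (le_max_left _ _))
  have h3 : 0 ≤ t := le_max_right _ _
  have h2 : t < ‖((t + 1 : ℝ) : ℂ) - 0‖ := by
    rw [sub_zero, Complex.norm_real, Real.norm_of_nonneg (by linarith)]
    linarith
  refine ⟨((t + 1 : ℝ) : ℂ), compl_fill_eq h1 h3 h2, ?_⟩
  intro hw
  have := h1 hw
  rw [mem_closedBall, dist_eq_norm] at this
  linarith

theorem isOpen_fill {W : Set ℂ} (hb : IsBounded W) (ho : IsOpen W) : IsOpen (Fill W) := by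
  obtain ⟨w, hw, -⟩ := exists_compl_fill_eq hb
  rw [← isClosed_compl_iff, hw]
  exact H762R2.isClosed_connectedComponentIn ho.isClosed_compl w

theorem isConnected_compl_fill {W : Set ℂ} (hb : IsBounded W) : IsConnected (Fill W)ᶜ := by
  obtain ⟨w, hw, hwW⟩ := exists_compl_fill_eq hb
  rw [hw]
  exact ⟨⟨w, mem_connectedComponentIn hwW⟩, isPreconnected_connectedComponentIn⟩

theorem not_isBounded_compl_fill {W : Set ℂ} (hb : IsBounded W) : ¬ IsBounded (Fill W)ᶜ := by
  intro h
  obtain ⟨R, hR⟩ := ((isBounded_fill hb).union h).subset_closedBall 0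
  rw [union_compl_self] at hR
  exact not_isBounded_norm_gt 0 0 (isBounded_closedBall.subset ((subset_univ _).trans hR))

theorem isConnected_fill {W : Set ℂ} (hb : IsBounded W) (ho : IsOpen W) (hc : IsConnected W) :
    IsConnected (Fill W) := by
  obtain ⟨w, hw, -⟩ := exists_compl_fill_eq hb
  rw [← compl_compl (Fill W), hw]
  exact H762R2.isConnected_compl_component hc ho w

/-- The frontier of the filling is contained in the frontier of the set. -/
theorem frontier_fill_subset {W : Set ℂ} (hb : IsBounded W) (ho : IsOpen W) :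
    frontier (Fill W) ⊆ frontier W := by
  obtain ⟨w, hw, -⟩ := exists_compl_fill_eq hb
  intro z hz
  have h1 : z ∉ Fill W := by
    intro h
    rw [(isOpen_fill hb ho).frontier_eq] at hz
    exact hz.2 h
  have hzX : z ∈ connectedComponentIn Wᶜ w := by
    rw [← hw]
    exact h1
  have hzW : z ∉ W := fun h => h1 (subset_fill W h)
  rw [ho.frontier_eq]
  refine ⟨?_, hzW⟩
  by_contra hcl
  -- a ball about `z` is disjoint from `W`
  have h2 : (closure W)ᶜ ∈ 𝓝 z := isClosed_closure.isOpen_compl.mem_nhds hcl
  obtain ⟨ε, hε, hball⟩ := Metric.mem_nhds_iff.1 h2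
  have h3 : ball z ε ⊆ Wᶜ := hball.trans (compl_subset_compl.2 subset_closure)
  have h4 : ball z ε ⊆ connectedComponentIn Wᶜ z :=
    (convex_ball z ε).isPreconnected.subset_connectedComponentIn (mem_ball_self hε) h3
  rw [← connectedComponentIn_eq hzX, ← hw] at h4
  rw [frontier_eq_closure_inter_closure] at hz
  have h5 : z ∈ closure (Fill W) := hz.1
  rw [Metric.mem_closure_iff] at h5
  obtain ⟨y, hy, hyz⟩ := h5 ε hε
  exact h4 (mem_ball.2 (by rw [dist_comm]; exact hyz)) hy

/-- A preconnected set which meets a set and misses its frontier is contained in it. -/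
theorem subset_of_inter_frontier {S A : Set ℂ} (hS : IsPreconnected S)
    (h : ∀ z ∈ S, z ∉ frontier A) {z : ℂ} (hz : z ∈ S) (hzA : z ∈ A) : S ⊆ A := by
  have hcover : S ⊆ interior A ∪ (closure A)ᶜ := by
    intro y hy
    by_cases h1 : y ∈ closure A
    · left
      by_contra h2
      exact h y hy ⟨h1, h2⟩
    · exact Or.inr h1
  have hzi : z ∈ interior A := by
    by_contra h2
    exact h z hz ⟨subset_closure hzA, h2⟩
  have := hS.subset_left_of_subset_union isOpen_interior isClosed_closure.isOpen_compl
    (disjoint_left.2 fun y hy hy2 => hy2 (subset_closure (interior_subset hy))) hcover ⟨z, hz, hzi⟩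
  exact this.trans interior_subset

theorem fill_mono_of {W1 W2 : Set ℂ} (hb : IsBounded W2) (h : W1 ⊆ Fill W2) :
    Fill W1 ⊆ Fill W2 :=
  fill_subset h (isConnected_compl_fill hb).isPreconnected (not_isBounded_compl_fill hb)

theorem fill_mono {W1 W2 : Set ℂ} (hb : IsBounded W2) (h : W1 ⊆ W2) : Fill W1 ⊆ Fill W2 :=
  fill_mono_of hb (h.trans (subset_fill W2))

/-- The fillings of two disjoint bounded connected open sets are disjoint or nested. -/
theorem fill_disjoint_or {W1 W2 : Set ℂ} (hb1 : IsBounded W1) (hb2 : IsBounded W2)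
    (ho1 : IsOpen W1) (ho2 : IsOpen W2) (hc1 : IsConnected W1) (hc2 : IsConnected W2)
    (hd : Disjoint W1 W2) :
    Disjoint (Fill W1) (Fill W2) ∨ Fill W1 ⊆ Fill W2 ∨ Fill W2 ⊆ Fill W1 := by
  by_cases h21 : (W2 ∩ Fill W1).Nonempty
  · obtain ⟨z, hz, hz1⟩ := h21
    right; right
    apply fill_mono_of hb1
    refine subset_of_inter_frontier hc2.isPreconnected ?_ hz hz1
    intro y hy hyf
    have h1 := frontier_fill_subset hb1 ho1 hyf
    have h2 : y ∈ closure W1 := h1.1
    exact (hd.closure_left ho2).le_bot ⟨h2, hy⟩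
  · by_cases h12 : (W1 ∩ Fill W2).Nonempty
    · obtain ⟨z, hz, hz1⟩ := h12
      right; left
      apply fill_mono_of hb2
      refine subset_of_inter_frontier hc1.isPreconnected ?_ hz hz1
      intro y hy hyf
      have h1 := frontier_fill_subset hb2 ho2 hyf
      have h2 : y ∈ closure W2 := h1.1
      exact (hd.closure_right ho1).le_bot ⟨hy, h2⟩
    · left
      rw [disjoint_left]
      intro z hz1 hz2
      have h3 : Fill W1 ⊆ Fill W2 := by
        refine subset_of_inter_frontier (isConnected_fill hb1 ho1 hc1).isPreconnected ?_ hz1 hz2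
        intro y hy hyf
        have h1 := frontier_fill_subset hb2 ho2 hyf
        have h2 : y ∈ closure W2 := h1.1
        have h4 : Disjoint (Fill W1) W2 := by
          rw [disjoint_left]
          intro u hu1 hu2
          exact h21 ⟨u, hu2, hu1⟩
        exact (h4.closure_right (isOpen_fill hb1 ho1)).le_bot ⟨hy, h2⟩
      obtain ⟨w, hw⟩ := hc1.nonempty
      exact h12 ⟨w, hw, h3 (subset_fill W1 hw)⟩

/-- The filling of a symmetric set is symmetric. -/
theorem fill_neg {W : Set ℂ} (h : ∀ z ∈ W, -z ∈ W) : ∀ z ∈ Fill W, -z ∈ Fill W := by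
  intro z hz
  by_cases hzW : -z ∈ W
  · exact subset_fill W hzW
  rw [mem_fill] at hz ⊢
  have hz2 : z ∈ Wᶜ := by
    intro hzz
    exact hzW (h z hzz)
  have h1 : connectedComponentIn Wᶜ (-z) ⊆ (fun w => -w) '' connectedComponentIn Wᶜ z := by
    have h2 : (fun w : ℂ => -w) '' connectedComponentIn Wᶜ (-z) ⊆ connectedComponentIn Wᶜ z := by
      apply IsPreconnected.subset_connectedComponentIn
      · exact isPreconnected_connectedComponentIn.image _ (by fun_prop)
      · exact ⟨-z, mem_connectedComponentIn hzW, by simp⟩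
      · rintro _ ⟨y, hy, rfl⟩ hyW
        have h3 := connectedComponentIn_subset _ _ hy
        apply h3
        have := h _ hyW
        simpa using this
    intro y hy
    exact ⟨-y, h2 ⟨y, hy, rfl⟩, by simp⟩
  have h2 : IsBounded ((fun w : ℂ => -w) '' connectedComponentIn Wᶜ z) := by
    have : (fun w : ℂ => -w) '' connectedComponentIn Wᶜ z = -(connectedComponentIn Wᶜ z) := by
      rw [Set.image_neg_eq_neg]
    rw [this]
    exact hz.neg
  exact h2.subset h1

end Pool.Agent.J4H71.UD
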