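import Mathlib
import Pool.Agent.J4H16.UD.Defs
import Pool.Agent.J4H71.UD.Fill
import Pool.Agent.W538.JQ.Rmt

/-!
# COV (U2): covers of totally disconnected sets by disjoint small conformal discs
-/

set_option autoImplicit false
open Set Filter Topology Metric Bornology

namespace Pool.Agent.J4H71.UD

open Pool.Agent.J4H16.UD Pool.Agent.W746.LD

/-- The Riemann map of a bounded simply connected domain with free frontier is a conformal disc
with a free collar. -/
theorem exists_disc {A L : Set ℂ} {z0 : ℂ} (hL : IsClosed L) (ho : IsOpen A) (hc : IsConnected A)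
    (hb : IsBounded A) (hcc : IsConnected Aᶜ) (hz0 : z0 ∈ A) (hf : ∀ z ∈ frontier A, z ∉ L) :
    ∃ (χ ψ : ℂ → ℂ) (κ : ℝ), CD χ κ L ∧ χ '' ball 0 1 = A ∧ χ 0 = z0 ∧ DifferentiableOn ℂ ψ A ∧
      (∀ z ∈ A, ψ z ∈ ball (0 : ℂ) 1 ∧ χ (ψ z) = z) ∧
      ∀ w ∈ ball (0 : ℂ) 1, χ w ∈ A ∧ ψ (χ w) = w := by
  obtain ⟨ψ, χ, hψ, hχ, h0, h1, h2⟩ := W538.JQ.rmt A z0 ho hc hb hcc hz0
  have hcl : L ∩ closure A ⊆ A := by
    rintro z ⟨hzL, hzA⟩
    by_contra hz
    refine hf z ?_ hzL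
    rw [ho.frontier_eq]
    exact ⟨hzA, hz⟩
  have hcpt : IsCompact (L ∩ closure A) :=
    (Metric.isCompact_of_isClosed_isBounded isClosed_closure hb.closure).inter_left hL
  have hcpt2 : IsCompact (ψ '' (L ∩ closure A)) :=
    hcpt.image_of_continuousOn (hψ.continuousOn.mono hcl)
  have hsub : ψ '' (L ∩ closure A) ⊆ ball 0 1 := by
    rintro _ ⟨z, hz, rfl⟩
    exact (h1 z (hcl hz)).1
  obtain ⟨r', hr', hr2⟩ := exists_lt_subset_ball hcpt2.isClosed hsub
  have himg : χ '' ball 0 1 = A := by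
    apply Subset.antisymm
    · rintro _ ⟨w, hw, rfl⟩
      exact (h2 w hw).1
    · intro z hz
      exact ⟨ψ z, (h1 z hz).1, (h1 z hz).2⟩
  refine ⟨χ, ψ, max r' (1 / 2), ⟨⟨hχ, ?_⟩, ?_, ?_, ?_⟩, himg, ?_, hψ, h1, h2⟩
  · intro a ha b hb hab
    rw [← (h2 a ha).2, ← (h2 b hb).2, hab]
  · exact lt_of_lt_of_le (by norm_num) (le_max_right _ _)
  · exact max_lt hr' (by norm_num)
  · intro ζ hζ1 hζ2 hmem
    have hζb : ζ ∈ ball (0 : ℂ) 1 := by
      rw [mem_ball, dist_zero_right]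
      exact hζ2
    have h3 : ψ (χ ζ) ∈ ball (0 : ℂ) r' :=
      hr2 ⟨χ ζ, ⟨hmem, subset_closure (h2 ζ hζb).1⟩, rfl⟩
    rw [(h2 ζ hζb).2, mem_ball, dist_zero_right] at h3
    have := lt_of_le_of_lt (le_max_left r' (1 / 2)) hζ1
    linarith
  · have := (h1 z0 hz0).2
    rwa [h0] at this

/-- Finitely many small open sets with free frontiers which cover a neighbourhood of the part of
the set in a ball. -/
theorem exists_cover {L : Set ℂ} (hL : IsClosed L) (hT : TD L) (B : ℝ) {e : ℝ} (he : 0 < e) :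
    ∃ (t : Finset ℂ) (D : ℂ → Set ℂ) (η : ℝ), 0 < η ∧
      (∀ i ∈ t, i ∈ L ∧ ‖i‖ ≤ B ∧ IsOpen (D i) ∧ D i ⊆ ball i e) ∧
      ∀ z : ℂ, (∃ p ∈ L, ‖p‖ ≤ B ∧ ‖z - p‖ < η) →
        (∃ i ∈ t, z ∈ D i) ∧ ∀ i ∈ t, z ∉ frontier (D i) := by
  have hex : ∀ Z : ℂ, ∃ D : Set ℂ, Z ∈ L → IsOpen D ∧ Z ∈ D ∧ D ⊆ ball Z e ∧
      ∀ z ∈ frontier D, z ∉ L := by
    intro Z
    by_cases hZ : Z ∈ L
    · obtain ⟨D, hD⟩ := hT Z hZ e he
      exact ⟨D, fun _ => hD⟩
    · exact ⟨∅, fun h => absurd h hZ⟩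
  choose D hD using hex
  have hcpt : IsCompact (L ∩ closedBall 0 B) := (isCompact_closedBall 0 B).inter_left hL
  obtain ⟨t, ht1, ht2⟩ := hcpt.elim_nhds_subcover D (by
    intro Z hZ
    exact (hD Z hZ.1).1.mem_nhds (hD Z hZ.1).2.1)
  set F : Set ℂ := ⋃ i ∈ t, frontier (D i) with hF
  have hFc : IsCompact F := by
    apply t.isCompact_biUnion
    intro i hi
    refine Metric.isCompact_of_isClosed_isBounded isClosed_frontier ?_
    exact (isBounded_ball.subset (hD i (ht1 i hi).1).2.2.1).closure.subset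
      frontier_subset_closure
  have hFL : Disjoint F L := by
    rw [disjoint_left]
    intro z hz hzL
    rw [hF, mem_iUnion₂] at hz
    obtain ⟨i, hi, hz⟩ := hz
    exact (hD i (ht1 i hi).1).2.2.2 z hz hzL
  obtain ⟨η, hη, hth⟩ := hFL.exists_thickenings hFc hL
  refine ⟨t, D, η, hη, ?_, ?_⟩
  · intro i hi
    refine ⟨(ht1 i hi).1, ?_, (hD i (ht1 i hi).1).1, (hD i (ht1 i hi).1).2.2.1⟩
    simpa using (ht1 i hi).2
  · have hfree : ∀ z : ℂ, ∀ p ∈ L, ‖z - p‖ < η → ∀ i ∈ t, z ∉ frontier (D i) := by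
      intro z p hp hzp i hi hzf
      have hzF : z ∈ F := by
        rw [hF, mem_iUnion₂]
        exact ⟨i, hi, hzf⟩
      have hz1 : z ∈ thickening η F := self_subset_thickening hη F hzF
      have hz2 : z ∈ thickening η L := by
        rw [mem_thickening_iff]
        exact ⟨p, hp, by rw [dist_eq_norm]; exact hzp⟩
      exact disjoint_left.1 hth hz1 hz2
    rintro z ⟨p, hp, hpB, hzp⟩
    refine ⟨?_, hfree z p hp hzp⟩
    have hp2 := ht2 ⟨hp, by simpa using hpB⟩
    rw [mem_iUnion₂] at hp2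
    obtain ⟨i, hi, hpi⟩ := hp2
    refine ⟨i, hi, ?_⟩
    have hsub : ball p η ⊆ D i := by
      refine subset_of_inter_frontier (convex_ball p η).isPreconnected ?_ (mem_ball_self hη) hpi
      intro y hy
      refine hfree y p hp ?_ i hi
      rw [← dist_eq_norm]
      exact hy
    exact hsub (by rw [mem_ball, dist_eq_norm]; exact hzp)

/-- The frontier of a component of an open set is disjoint from the set. -/
theorem frontier_component {O : Set ℂ} (hO : IsOpen O) (z : ℂ) :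
    ∀ y ∈ frontier (connectedComponentIn O z), y ∉ O := by
  intro y hy hyO
  have h1 : IsOpen (connectedComponentIn O z) := hO.connectedComponentIn
  rw [h1.frontier_eq] at hy
  have h2 : connectedComponentIn O y ∈ 𝓝 y :=
    hO.connectedComponentIn.mem_nhds (mem_connectedComponentIn hyO)
  obtain ⟨u, hu1, hu2⟩ := mem_closure_iff_nhds.1 hy.1 _ h2
  apply hy.2
  rw [connectedComponentIn_eq hu2, ← connectedComponentIn_eq hu1]
  exact mem_connectedComponentIn hyO

theorem t_COV : S_COV := by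
  classical
  intro L B e hL hT he
  obtain ⟨t, D, η, hη, ht, hcov⟩ := exists_cover hL hT (B + 3 * e) (show 0 < e / 4 by linarith)
  set O : Set ℂ := {z | ∃ p ∈ L, ‖p‖ ≤ B + 3 * e ∧ ‖z - p‖ < η} with hOdef
  have hO : IsOpen O := by
    have : O = ⋃ p ∈ {p | p ∈ L ∧ ‖p‖ ≤ B + 3 * e}, ball p η := by
      ext z
      rw [mem_iUnion₂]
      constructor
      · rintro ⟨p, hp, hpB, hz⟩
        exact ⟨p, ⟨hp, hpB⟩, by rw [mem_ball, dist_eq_norm]; exact hz⟩
      · rintro ⟨p, ⟨hp, hpB⟩, hz⟩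
        exact ⟨p, hp, hpB, by rw [← dist_eq_norm]; exact hz⟩
    rw [this]
    exact isOpen_biUnion fun _ _ => isOpen_ball
  set W : ℂ → Set ℂ := fun z => connectedComponentIn O z with hW
  have hWo : ∀ z, IsOpen (W z) := fun z => hO.connectedComponentIn
  have hWc : ∀ z ∈ O, IsConnected (W z) := fun z hz =>
    ⟨⟨z, mem_connectedComponentIn hz⟩, isPreconnected_connectedComponentIn⟩
  have hWb : ∀ z ∈ O, ∃ i : ℂ, W z ⊆ ball i (e / 4) := by
    intro z hz
    obtain ⟨i, hi, hzi⟩ := (hcov z hz).1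
    refine ⟨i, Subset.trans ?_ (ht i hi).2.2.2⟩
    refine subset_of_inter_frontier isPreconnected_connectedComponentIn ?_
      (mem_connectedComponentIn hz) hzi
    intro y hy
    have hyO : y ∈ O := connectedComponentIn_subset O z hy
    exact (hcov y hyO).2 i hi
  have hWbd : ∀ z ∈ O, IsBounded (W z) := fun z hz => by
    obtain ⟨i, hi⟩ := hWb z hz
    exact isBounded_ball.subset hi
  have hFb : ∀ z ∈ O, ∃ i : ℂ, Fill (W z) ⊆ ball i (e / 4) := by
    intro z hz
    obtain ⟨i, hi⟩ := hWb z hz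
    exact ⟨i, fill_subset_ball hi (hWc z hz).nonempty⟩
  have hL0 : L ∩ closedBall 0 B ⊆ O := by
    rintro z ⟨hz, hzB⟩
    rw [mem_closedBall, dist_zero_right] at hzB
    exact ⟨z, hz, by linarith, by rw [sub_self, norm_zero]; exact hη⟩
  have hfree : ∀ z ∈ L ∩ closedBall 0 B, ∀ y ∈ frontier (Fill (W z)), y ∉ L := by
    intro z hz y hy hyL
    have hzO := hL0 hz
    have h1 := frontier_fill_subset (hWbd z hzO) (hWo z) hy
    refine frontier_component hO z y h1 ?_
    refine ⟨y, hyL, ?_, by rw [sub_self, norm_zero]; exact hη⟩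
    obtain ⟨i, hi⟩ := hWb z hzO
    have h2 : y ∈ closedBall i (e / 4) := by
      have h3 : closure (W z) ⊆ closedBall i (e / 4) :=
        closure_minimal (hi.trans ball_subset_closedBall) isClosed_closedBall
      exact h3 h1.1
    have h4 := hi (mem_connectedComponentIn hzO)
    have h5 := hz.2
    rw [mem_closedBall, dist_eq_norm] at h2
    rw [mem_ball, dist_eq_norm] at h4
    rw [mem_closedBall, dist_zero_right] at h5
    have h6 : ‖y‖ ≤ ‖y - i‖ + ‖z - i‖ + ‖z‖ := by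
      have e1 : y = (y - i) - (z - i) + z := by ring
      calc ‖y‖ = ‖(y - i) - (z - i) + z‖ := by rw [← e1]
        _ ≤ ‖(y - i) - (z - i)‖ + ‖z‖ := norm_add_le _ _
        _ ≤ _ := by
          have := norm_sub_le (y - i) (z - i)
          linarith
    linarith
  have hcpt : IsCompact (L ∩ closedBall 0 B) := (isCompact_closedBall 0 B).inter_left hL
  obtain ⟨t0, ht01, ht02⟩ := hcpt.elim_nhds_subcover W (by
    intro z hz
    exact (hWo z).mem_nhds (mem_connectedComponentIn (hL0 hz)))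
  set 𝓕 : Finset (Set ℂ) := t0.image (fun z => Fill (W z)) with h𝓕
  set 𝓜 : Finset (Set ℂ) := 𝓕.filter (fun S => ∀ S' ∈ 𝓕, S ⊆ S' → S' ⊆ S) with h𝓜
  set S : Fin 𝓜.card → Set ℂ := fun k => (𝓜.equivFin.symm k : Set ℂ) with hS
  have hSM : ∀ k, S k ∈ 𝓜 := fun k => (𝓜.equivFin.symm k).2
  have hSz : ∀ k, ∃ z ∈ t0, Fill (W z) = S k := by
    intro k
    have := (Finset.mem_filter.1 (hSM k)).1
    rw [h𝓕, Finset.mem_image] at this
    exact this
  choose z hz0 hzS using hSz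
  have hzL : ∀ k, z k ∈ L ∩ closedBall 0 B := fun k => ht01 (z k) (hz0 k)
  have hzO : ∀ k, z k ∈ O := fun k => hL0 (hzL k)
  have hdisc : ∀ k, ∃ (χ : ℂ → ℂ) (κ : ℝ), CD χ κ L ∧ χ '' ball 0 1 = S k := by
    intro k
    obtain ⟨χ, ψ, κ, h1, h2, -⟩ := exists_disc (A := Fill (W (z k))) (z0 := z k) hL
      (isOpen_fill (hWbd _ (hzO k)) (hWo _)) (isConnected_fill (hWbd _ (hzO k)) (hWo _)
      (hWc _ (hzO k))) (isBounded_fill (hWbd _ (hzO k))) (isConnected_compl_fill (hWbd _ (hzO k)))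
      (subset_fill _ (mem_connectedComponentIn (hzO k))) (hfree _ (hzL k))
    exact ⟨χ, κ, h1, by rw [h2, hzS k]⟩
  choose χ κ hχ1 hχ2 using hdisc
  refine ⟨𝓜.card, χ, κ, ?_, ?_, ?_⟩
  · intro k
    rw [hχ2 k]
    refine ⟨hχ1 k, ?_, ⟨z k, ?_, (hzL k).1⟩⟩
    · obtain ⟨i, hi⟩ := hFb (z k) (hzO k)
      rw [hzS k] at hi
      intro a ha b hb
      have h1 := hi ha
      have h2 := hi hb
      rw [mem_ball, dist_eq_norm] at h1 h2
      have h3 : a - b = (a - i) - (b - i) := by ring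
      rw [h3]
      have := norm_sub_le (a - i) (b - i)
      linarith
    · rw [← hzS k]
      exact subset_fill _ (mem_connectedComponentIn (hzO k))
  · intro k l hkl
    rw [hχ2 k, hχ2 l]
    have hne : S k ≠ S l := by
      intro h
      apply hkl
      have h1 : 𝓜.equivFin.symm k = 𝓜.equivFin.symm l := Subtype.ext h
      exact 𝓜.equivFin.symm.injective h1
    have hk := Finset.mem_filter.1 (hSM k)
    have hl := Finset.mem_filter.1 (hSM l)
    have hd : Disjoint (W (z k)) (W (z l)) := by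
      rw [disjoint_left]
      intro y hy1 hy2
      apply hne
      rw [← hzS k, ← hzS l]
      have e1 : W (z k) = W y := connectedComponentIn_eq hy1
      have e2 : W (z l) = W y := connectedComponentIn_eq hy2
      rw [e1, e2]
    have := fill_disjoint_or (hWbd _ (hzO k)) (hWbd _ (hzO l)) (hWo _) (hWo _) (hWc _ (hzO k))
      (hWc _ (hzO l)) hd
    rw [hzS k, hzS l] at this
    rcases this with h | h | h
    · exact h
    · exact absurd (Subset.antisymm h (hk.2 _ hl.1 h)) hne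
    · exact absurd (Subset.antisymm (hl.2 _ hk.1 h) h) hne
  · intro Z hZ hZB
    have h1 := ht02 ⟨hZ, by rw [mem_closedBall, dist_zero_right]; exact hZB⟩
    rw [mem_iUnion₂] at h1
    obtain ⟨y, hy, hZy⟩ := h1
    have h2 : Fill (W y) ∈ 𝓕 := Finset.mem_image_of_mem _ hy
    obtain ⟨T, hT1, hT2⟩ := 𝓕.exists_le_maximal h2
    have hTM : T ∈ 𝓜 := by
      rw [h𝓜, Finset.mem_filter]
      exact ⟨hT2.1, fun S' hS' hTS => hT2.2 hS' hTS⟩
    refine ⟨𝓜.equivFin ⟨T, hTM⟩, ?_⟩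
    rw [hχ2]
    have h3 : S (𝓜.equivFin ⟨T, hTM⟩) = T := by
      simp only [hS, Equiv.symm_apply_apply]
    rw [h3]
    exact hT1 (subset_fill _ hZy)

end Pool.Agent.J4H71.UD
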