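import Mathlib
import Pool.Agent.J4H71.UD.Cov

/-!
# SYMD (U5): odd conformal discs
-/

set_option autoImplicit false
open Set Filter Topology Metric Bornology

namespace Pool.Agent.J4H71.UD

open Pool.Agent.J4H16.UD Pool.Agent.W746.LD

/-- One half of `TD.union`. -/
theorem td_union_aux {A B : Set ℂ} (hA : IsClosed A) (hB : IsClosed B) (tA : TD A) (tB : TD B)
    {Z : ℂ} (hZ : Z ∈ A) {e : ℝ} (he : 0 < e) :
    ∃ D : Set ℂ, IsOpen D ∧ Z ∈ D ∧ D ⊆ ball Z e ∧ ∀ z ∈ frontier D, z ∉ A ∪ B := by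
  obtain ⟨D1, hD1, hZD, hDb, hDf⟩ := tA Z hZ (e / 2) (by linarith)
  set K : Set ℂ := frontier D1 ∩ B with hK
  have hcl : closure D1 ⊆ closedBall Z (e / 2) :=
    closure_minimal (hDb.trans ball_subset_closedBall) isClosed_closedBall
  have hKc : IsCompact K := by
    refine Metric.isCompact_of_isClosed_isBounded (isClosed_frontier.inter hB) ?_
    exact isBounded_closedBall.subset
      (inter_subset_left.trans (frontier_subset_closure.trans hcl))
  have hKA : Disjoint K A := by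
    rw [disjoint_left]
    intro z hz hzA
    exact hDf z hz.1 hzA
  obtain ⟨δ, hδ, hth⟩ := hKA.exists_thickenings hKc hA
  have hex : ∀ p : ℂ, ∃ E : Set ℂ, p ∈ K → IsOpen E ∧ p ∈ E ∧ E ⊆ ball p (min (δ / 2) (e / 4)) ∧
      ∀ z ∈ frontier E, z ∉ B := by
    intro p
    by_cases hp : p ∈ K
    · obtain ⟨E, hE⟩ := tB p hp.2 (min (δ / 2) (e / 4)) (lt_min (by linarith) (by linarith))
      exact ⟨E, fun _ => hE⟩
    · exact ⟨∅, fun h => absurd h hp⟩
  choose E hE using hex
  obtain ⟨t, ht1, ht2⟩ := hKc.elim_nhds_subcover E (by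
    intro p hp
    exact (hE p hp).1.mem_nhds (hE p hp).2.1)
  refine ⟨D1 ∪ ⋃ p ∈ t, E p, ?_, Or.inl hZD, ?_, ?_⟩
  · refine hD1.union (isOpen_biUnion fun p hp => (hE p (ht1 p hp)).1)
  · rintro y (hy | hy)
    · have h1 := hDb hy
      rw [mem_ball] at h1 ⊢
      linarith
    · rw [mem_iUnion₂] at hy
      obtain ⟨p, hp, hy⟩ := hy
      have h1 := (hE p (ht1 p hp)).2.2.1 hy
      have h2 := hcl (frontier_subset_closure (ht1 p hp).1)
      rw [mem_ball] at h1 ⊢
      rw [mem_closedBall] at h2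
      have h3 := dist_triangle y p Z
      have h4 := min_le_right (δ / 2) (e / 4)
      linarith
  · intro y hy
    have hop : IsOpen (D1 ∪ ⋃ p ∈ t, E p) :=
      hD1.union (isOpen_biUnion fun p hp => (hE p (ht1 p hp)).1)
    rw [hop.frontier_eq, closure_union, t.closure_biUnion] at hy
    obtain ⟨hy1, hy2⟩ := hy
    rcases hy1 with hy1 | hy1
    · have hyf : y ∈ frontier D1 := by
        rw [hD1.frontier_eq]
        exact ⟨hy1, fun h => hy2 (Or.inl h)⟩
      rintro (h | h)
      · exact hDf y hyf h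
      · exact hy2 (Or.inr (ht2 ⟨hyf, h⟩))
    · rw [mem_iUnion₂] at hy1
      obtain ⟨p, hp, hyp⟩ := hy1
      have hpK := ht1 p hp
      rintro (h | h)
      · have h1 : closure (E p) ⊆ closedBall p (min (δ / 2) (e / 4)) :=
          closure_minimal ((hE p hpK).2.2.1.trans ball_subset_closedBall) isClosed_closedBall
        have h2 := h1 hyp
        rw [mem_closedBall] at h2
        have h3 := min_le_left (δ / 2) (e / 4)
        have h4 : y ∈ thickening δ K := by
          rw [mem_thickening_iff]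
          exact ⟨p, hpK, by linarith⟩
        exact disjoint_left.1 hth h4 (self_subset_thickening hδ A h)
      · refine (hE p hpK).2.2.2 y ?_ h
        rw [(hE p hpK).1.frontier_eq]
        refine ⟨hyp, fun h5 => hy2 (Or.inr ?_)⟩
        rw [mem_iUnion₂]
        exact ⟨p, hp, h5⟩

theorem td_union {A B : Set ℂ} (hA : IsClosed A) (hB : IsClosed B) (tA : TD A) (tB : TD B) :
    TD (A ∪ B) := by
  intro Z hZ e he
  rcases hZ with hZ | hZ
  · exact td_union_aux hA hB tA tB hZ he
  · obtain ⟨D, h1, h2, h3, h4⟩ := td_union_aux hB hA tB tA hZ he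
    exact ⟨D, h1, h2, h3, fun z hz => by rw [union_comm]; exact h4 z hz⟩

theorem td_neg {A : Set ℂ} (tA : TD A) : TD {z | -z ∈ A} := by
  intro Z hZ e he
  obtain ⟨D, h1, h2, h3, h4⟩ := tA (-Z) hZ e he
  refine ⟨{z | -z ∈ D}, h1.preimage continuous_neg, h2, ?_, ?_⟩
  · intro z hz
    have h5 := h3 hz
    rw [mem_ball, dist_neg_neg] at h5
    exact h5
  · intro z hz hzA
    have h5 : frontier ((Homeomorph.neg ℂ) ⁻¹' D) = (Homeomorph.neg ℂ) ⁻¹' frontier D :=
      ((Homeomorph.neg ℂ).preimage_frontier D).symm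
    have h6 : z ∈ (Homeomorph.neg ℂ) ⁻¹' frontier D := by
      rw [← h5]
      exact hz
    exact h4 (-z) h6 hzA

theorem t_SYMD : S_SYMD := by
  classical
  intro L R hL hT hR
  set M : Set ℂ := L ∪ {z | -z ∈ L} with hM
  have hLn : IsClosed {z : ℂ | -z ∈ L} := hL.preimage continuous_neg
  have hMc : IsClosed M := hL.union hLn
  have hMT : TD M := td_union hL hLn hT (td_neg hT)
  have hMs : ∀ z ∈ M, -z ∈ M := by
    rintro z (hz | hz)
    · right
      show - -z ∈ L
      rwa [neg_neg]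
    · exact Or.inl hz
  obtain ⟨t, D, η, hη, ht, hcov⟩ := exists_cover hMc hMT (R + 3) (show (0 : ℝ) < 1 / 4 by norm_num)
  set O : Set ℂ := ball 0 R ∪ {z | ∃ p ∈ M, ‖p‖ ≤ R + 3 ∧ ‖z - p‖ < η} with hOdef
  have hO : IsOpen O := by
    refine isOpen_ball.union ?_
    have : {z : ℂ | ∃ p ∈ M, ‖p‖ ≤ R + 3 ∧ ‖z - p‖ < η} =
        ⋃ p ∈ {p | p ∈ M ∧ ‖p‖ ≤ R + 3}, ball p η := by
      ext z
      rw [mem_iUnion₂]
      constructor
      · rintro ⟨p, hp, hpB, hz⟩
        exact ⟨p, ⟨hp, hpB⟩, by rw [mem_ball, dist_eq_norm]; exact hz⟩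
      · rintro ⟨p, ⟨hp, hpB⟩, hz⟩
        exact ⟨p, hp, hpB, by rw [← dist_eq_norm]; exact hz⟩
    rw [this]
    exact isOpen_biUnion fun _ _ => isOpen_ball
  have hOs : ∀ z ∈ O, -z ∈ O := by
    rintro z (hz | ⟨p, hp, hpR, hz⟩)
    · left
      rw [mem_ball, dist_zero_right] at hz ⊢
      rwa [norm_neg]
    · right
      refine ⟨-p, hMs p hp, by rwa [norm_neg], ?_⟩
      rw [← norm_neg]
      have : -(-z - -p) = z - p := by ring
      rwa [this]
  have h0O : (0 : ℂ) ∈ O := Or.inl (mem_ball_self hR)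
  set W : Set ℂ := connectedComponentIn O 0 with hW
  have hWo : IsOpen W := hO.connectedComponentIn
  have h0W : (0 : ℂ) ∈ W := mem_connectedComponentIn h0O
  have hWc : IsConnected W := ⟨⟨0, h0W⟩, isPreconnected_connectedComponentIn⟩
  have hbW : ball 0 R ⊆ W :=
    (convex_ball (0 : ℂ) R).isPreconnected.subset_connectedComponentIn (mem_ball_self hR)
      subset_union_left
  have hWs : ∀ z ∈ W, -z ∈ W := by
    intro z hz
    have h1 : (fun w : ℂ => -w) '' W ⊆ W := by
      apply IsPreconnected.subset_connectedComponentIn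
      · exact hWc.isPreconnected.image _ (by fun_prop)
      · exact ⟨0, h0W, by simp⟩
      · rintro _ ⟨y, hy, rfl⟩
        exact hOs y (connectedComponentIn_subset _ _ hy)
    exact h1 ⟨z, hz, rfl⟩
  -- the component is in the ball of radius `R + 1`
  set t' : Finset ℂ := t.filter (fun i => (D i ∩ ball 0 R).Nonempty) with ht'
  set P : Set ℂ := ball 0 R ∪ ⋃ i ∈ t', D i with hP
  have hDo : ∀ i ∈ t', IsOpen (D i) := fun i hi => (ht i (Finset.mem_filter.1 hi).1).2.2.1
  have hPo : IsOpen P := isOpen_ball.union (isOpen_biUnion hDo)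
  have hPb : P ⊆ ball 0 (R + 1) := by
    rintro y (hy | hy)
    · exact ball_subset_ball (by linarith) hy
    · rw [mem_iUnion₂] at hy
      obtain ⟨i, hi, hyi⟩ := hy
      obtain ⟨hi1, u, hu1, hu2⟩ := Finset.mem_filter.1 hi
      have h1 := (ht i hi1).2.2.2 hyi
      have h2 := (ht i hi1).2.2.2 hu1
      rw [mem_ball] at h1 h2 hu2 ⊢
      have h3 := dist_triangle y i 0
      have h4 := dist_triangle i u 0
      rw [dist_comm i u] at h4
      linarith
  have hWP : W ⊆ P := by
    refine subset_of_inter_frontier hWc.isPreconnected ?_ h0W (Or.inl (mem_ball_self hR))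
    intro y hy hyf
    rw [hPo.frontier_eq, hP, closure_union, t'.closure_biUnion] at hyf
    obtain ⟨hy1, hy2⟩ := hyf
    have hyO : y ∈ O := connectedComponentIn_subset O 0 hy
    rcases hyO with hyO | hyO
    · exact hy2 (Or.inl hyO)
    · obtain ⟨⟨j, hj, hyj⟩, hfr⟩ := hcov y hyO
      rcases hy1 with hy1 | hy1
      · obtain ⟨u, hu1, hu2⟩ := mem_closure_iff_nhds.1 hy1 _ ((ht j hj).2.2.1.mem_nhds hyj)
        apply hy2
        right
        rw [mem_iUnion₂]
        exact ⟨j, Finset.mem_filter.2 ⟨hj, u, hu1, hu2⟩, hyj⟩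
      · rw [mem_iUnion₂] at hy1
        obtain ⟨i, hi, hyi⟩ := hy1
        apply hfr i (Finset.mem_filter.1 hi).1
        rw [(hDo i hi).frontier_eq]
        refine ⟨hyi, fun h5 => hy2 (Or.inr ?_)⟩
        rw [mem_iUnion₂]
        exact ⟨i, hi, h5⟩
  have hWball : W ⊆ ball 0 (R + 1) := hWP.trans hPb
  have hWb : IsBounded W := isBounded_ball.subset hWball
  have hAb : Fill W ⊆ ball 0 (R + 1) := fill_subset_ball hWball ⟨0, h0W⟩
  have hfree : ∀ y ∈ frontier (Fill W), y ∉ L := by
    intro y hy hyL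
    have h1 := frontier_fill_subset hWb hWo hy
    refine frontier_component hO 0 y h1 (Or.inr ?_)
    refine ⟨y, Or.inl hyL, ?_, by rw [sub_self, norm_zero]; exact hη⟩
    have h2 : closure W ⊆ closedBall 0 (R + 1) :=
      closure_minimal (hWball.trans ball_subset_closedBall) isClosed_closedBall
    have h3 := h2 h1.1
    rw [mem_closedBall, dist_zero_right] at h3
    linarith
  have h0A : (0 : ℂ) ∈ Fill W := subset_fill W h0W
  have hAo : IsOpen (Fill W) := isOpen_fill hWb hWo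
  obtain ⟨χ, ψ, κ, hCD, himg, hχ0, hψ, h1, h2⟩ := exists_disc hL hAo
    (isConnected_fill hWb hWo hWc) (isBounded_fill hWb) (isConnected_compl_fill hWb)
    h0A hfree
  have hAs : ∀ z ∈ Fill W, -z ∈ Fill W := fill_neg hWs
  refine ⟨χ, κ, hCD, ?_, ?_, ?_⟩
  · -- `χ` is odd
    have h00 : (0 : ℂ) ∈ ball (0 : ℂ) 1 := mem_ball_self one_pos
    have hneg : ∀ ζ ∈ ball (0 : ℂ) 1, -ζ ∈ ball (0 : ℂ) 1 := by
      intro ζ hζ
      rw [mem_ball, dist_zero_right] at hζ ⊢
      rwa [norm_neg]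
    have hψ0 : ψ 0 = 0 := by
      have := (h2 0 h00).2
      rwa [hχ0] at this
    set g : ℂ → ℂ := fun ζ => ψ (-χ (-ζ)) with hg
    have hg0 : g 0 = 0 := by
      simp only [hg, neg_zero, hχ0, hψ0]
    have hmaps : MapsTo g (ball 0 1) (closedBall (g 0) 1) := by
      intro ζ hζ
      rw [hg0]
      exact ball_subset_closedBall (h1 _ (hAs _ (h2 _ (hneg ζ hζ)).1)).1
    have hχd : DifferentiableOn ℂ χ (ball 0 1) := hCD.u.1
    have hgd : DifferentiableOn ℂ g (ball 0 1) := by
      have e1 : DifferentiableOn ℂ (fun ζ => χ (-ζ)) (ball 0 1) :=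
        hχd.comp differentiable_neg.differentiableOn hneg
      exact hψ.comp e1.neg (fun ζ hζ => hAs _ (h2 _ (hneg ζ hζ)).1)
    -- the derivative at 0
    have hχ' : HasDerivAt χ (deriv χ 0) 0 :=
      (hχd.differentiableAt (isOpen_ball.mem_nhds h00)).hasDerivAt
    have hψ' : HasDerivAt ψ (deriv ψ 0) 0 :=
      (hψ.differentiableAt (hAo.mem_nhds h0A)).hasDerivAt
    have hprod : deriv ψ 0 * deriv χ 0 = 1 := by
      have e1 : HasDerivAt (fun ζ => ψ (χ ζ)) (deriv ψ 0 * deriv χ 0) 0 := by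
        have e2 : HasDerivAt ψ (deriv ψ 0) (χ 0) := by
          rw [hχ0]
          exact hψ'
        exact e2.comp 0 hχ'
      have e3 : HasDerivAt (fun ζ => ψ (χ ζ)) 1 0 := by
        refine (hasDerivAt_id (0 : ℂ)).congr_of_eventuallyEq ?_
        filter_upwards [isOpen_ball.mem_nhds h00] with ζ hζ
        exact (h2 ζ hζ).2
      exact e1.unique e3
    have hg' : HasDerivAt g 1 0 := by
      have e1 : HasDerivAt (fun ζ : ℂ => χ (-ζ)) (deriv χ 0 * (-1)) 0 := by
        have e2 : HasDerivAt χ (deriv χ 0) (-0) := by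
          rw [neg_zero]
          exact hχ'
        exact e2.comp 0 (hasDerivAt_neg 0)
      have e2 := e1.neg
      have e3 : HasDerivAt ψ (deriv ψ 0) (-χ (-0)) := by
        rw [neg_zero, hχ0, neg_zero]
        exact hψ'
      have e4 : HasDerivAt g (deriv ψ 0 * -(deriv χ 0 * (-1))) 0 := e3.comp 0 e2
      have e5 : deriv ψ 0 * -(deriv χ 0 * (-1)) = 1 := by
        rw [mul_neg_one, neg_neg, hprod]
      rwa [e5] at e4
    have hds : dslope g 0 0 = 1 := by
      rw [dslope_same]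
      exact hg'.deriv
    have hid := Complex.affine_of_mapsTo_ball_of_norm_dslope_eq_div hgd hmaps h00
      (by rw [hds]; simp)
    intro ζ hζ
    have e1 : g ζ = ζ := by
      rw [hid hζ, hds, hg0]
      simp
    have e2 := (h1 _ (hAs _ (h2 _ (hneg ζ hζ)).1)).2
    have e3 : ψ (-χ (-ζ)) = ζ := e1
    rw [e3] at e2
    rw [e2, neg_neg]
  · rw [himg]
    exact hbW.trans (subset_fill W)
  · rw [himg]
    exact hAb

end Pool.Agent.J4H71.UD
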